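import Pool.Agent.FlagHam.Vert

/-!
# Polytopes with all faces truncated have Hamilton cycles

For an abstract polytope `P` the chain graph has the saturated chains from the faces of rank `n`
down to the empty face as vertices, two of them being adjacent if they differ in one face. For
`n = rk ⊤ - 1` it is the flag graph. We prove that it has a Hamilton cycle in all cases with
`4 ≤ n < rk ⊤`, in the case `n = 3`, `rk ⊤ = 4`, and in the case `n = 3`, `rk ⊤ ≥ 5` if any two
different edges at a vertex lie in exactly one common 2-face (as in a simple polytope).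
-/

namespace Pool.Agent.Results.MP_af8dfd_co.FaceTruncations

open FlagHam

/-- The chain graphs of abstract polytopes have Hamilton cycles. -/
theorem result (P : Type*) [PartialOrder P] [BoundedOrder P] [Finite P] (rk : P → ℕ)
    (hP : IsPolytope P rk) (n : ℕ) (h3 : 3 ≤ n) (hn : n < rk (⊤ : P))
    (hs : n = 3 → rk (⊤ : P) = 4 ∨ TwoFaces P rk) [DecidableEq (Chains P rk n)] :
    ∃ (c : Chains P rk n) (p : (chainGraph P rk n).Walk c c), p.IsHamiltonianCycle := by
  refine hamiltonian_of_cyc hP hn h3 ?_
  by_cases h : n = 3
  · subst h
    rcases hs rfl with h4 | hT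
    · exact cyc_rank hP hn (Or.inr ⟨rfl, h4⟩)
    · exact cyc_rank_three hP hT (by omega)
  · exact cyc_rank hP hn (Or.inl (by omega))

end Pool.Agent.Results.MP_af8dfd_co.FaceTruncations
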