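import Pool.Agent.FewFacets.Final2

/-!
Every simple `d`-polytope, `d ≥ 3`, with at most `d + 3` facets which are not simplices has a
Hamiltonian cycle.
-/

namespace Pool.Agent.Results.MP_af8dfd_co.FewNonSimplexFacets

open FewFacets

/-- Let `P` be a bounded set with nonempty interior in `ℝ ^ d`, `d ≥ 3`, which is an
intersection of finitely many closed half-spaces, all but at most `d + 3` of which have at most
`d` vertices of `P` on their boundary, and let every vertex of `P` have exactly `d` neighbours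
in the graph of `P`. Then this graph has a Hamiltonian cycle. -/
theorem result {d : ℕ} (hd : 3 ≤ d) {ι : Type*} [Fintype ι]
    (a : ι → EuclideanSpace ℝ (Fin d)) (b : ι → ℝ) (P : Set (EuclideanSpace ℝ (Fin d)))
    (hP : P = {x | ∀ i, inner ℝ (a i) x ≤ b i}) (hbd : Bornology.IsBounded P)
    (hint : (interior P).Nonempty)
    (hsimple : ∀ v : P.extremePoints ℝ, ((polytopeGraph P).neighborSet v).ncard = d)
    (hfew : {i | d < {v | v ∈ P.extremePoints ℝ ∧ inner ℝ (a i) v = b i}.ncard}.ncard ≤ d + 3)
    [DecidableEq (P.extremePoints ℝ)] :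
    ∃ v, ∃ p : (polytopeGraph P).Walk v v, p.IsHamiltonianCycle := by
  have h : P = Poly (fun i => innerₛₗ ℝ (a i)) b := by
    rw [hP]; rfl
  have key : ∀ (Q : Set (EuclideanSpace ℝ (Fin d))), Q = Poly (fun i => innerₛₗ ℝ (a i)) b →
      Bornology.IsBounded Q → (interior Q).Nonempty →
      (∀ v : Q.extremePoints ℝ, ((polytopeGraph Q).neighborSet v).ncard = d) →
      {i | d < {v | v ∈ Q.extremePoints ℝ ∧ inner ℝ (a i) v = b i}.ncard}.ncard ≤ d + 3 →
      ∀ [DecidableEq (Q.extremePoints ℝ)],
      ∃ v, ∃ p : (polytopeGraph Q).Walk v v, p.IsHamiltonianCycle := by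
    rintro Q rfl h1 h2 h3 h4 inst
    exact main_simplex hd (by simp) _ b h1 h2 h3 h4
  exact key P h hbd hint hsimple hfew

end Pool.Agent.Results.MP_af8dfd_co.FewNonSimplexFacets
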