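import Pool.Agent.FewFacets.ShTFAE

/-!
# Spanning walks, Hamilton paths and Hamilton cycles of all simple polytopes of a dimension

Connected sums at vertices of bipartite simple polytopes (products of polygons, sums of cubes)
with copies of one simple polytope, with counting of the visits to the copies; for the long paths
this is iterated, copies being put at all vertices of copies.
-/

namespace Pool.Agent.Results.MP_af8dfd_co.PathsAndCycles

open FewFacets

/-- Spanning walks with few repeated vertices, path covers with few paths, paths with at least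
`N ^ (1 - c)` vertices, Hamilton paths, Hamilton cycles, and Hamilton cycles spread evenly over the
edges at any vertex (in dimension 4: through any two of them): for the simple polytopes of a
dimension `d ≥ 3` all of them exist or none. -/
theorem result (d : ℕ) (hd : 3 ≤ d) : List.TFAE [
    ∀ c : ℝ, 0 < c → ∃ N : ℕ, ∀ P : Set (EuclideanSpace ℝ (Fin d)), SimplePolytope d P →
      N ≤ Nat.card (Vtx P) → FewRepeats (gr P) c,
    ∀ c : ℝ, 0 < c → ∃ N : ℕ, ∀ P : Set (EuclideanSpace ℝ (Fin d)), SimplePolytope d P →
      N ≤ Nat.card (Vtx P) → CoverBy (gr P) c,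
    ∀ c : ℝ, 0 < c → ∃ N : ℕ, ∀ P : Set (EuclideanSpace ℝ (Fin d)), SimplePolytope d P →
      N ≤ Nat.card (Vtx P) → PowPath (gr P) c,
    ∀ P : Set (EuclideanSpace ℝ (Fin d)), SimplePolytope d P → HamPath (gr P),
    ∀ P : Set (EuclideanSpace ℝ (Fin d)), SimplePolytope d P → HamCycle (gr P),
    ∀ P : Set (EuclideanSpace ℝ (Fin d)), SimplePolytope d P →
      ∀ w : Vtx P, HamSpread (gr P) d w ∧ Pairs4 (gr P) d w] :=
  pow_tfae hd

end Pool.Agent.Results.MP_af8dfd_co.PathsAndCycles
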