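import Pool.Agent.FewFacets.ProdHam

/-!
# Products of simple polytopes have Hamilton cycles

The graph of a simple polytope of dimension `d` is connected and `d`-regular, and every edge cut
has at least `d` edges. The Cartesian product of any two graphs with these properties, for degrees
at least 2, has a Hamilton cycle, although the factors need not even have Hamilton paths.
-/

namespace Pool.Agent.Results.MP_af8dfd_co.Products

open FewFacets

/-- The product of two simple polytopes of dimension at least 2 has a Hamilton cycle. -/
theorem result (d e : ℕ) (hd : 2 ≤ d) (he : 2 ≤ e) (P : Set (EuclideanSpace ℝ (Fin d)))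
    (Q : Set (EuclideanSpace ℝ (Fin e))) (hP : SimplePolytope d P) (hQ : SimplePolytope e Q)
    [DecidableEq ((P ×ˢ Q).extremePoints ℝ)] :
    ∃ (v : (P ×ˢ Q).extremePoints ℝ) (p : (polytopeGraph (P ×ˢ Q)).Walk v v),
      p.IsHamiltonianCycle :=
  prod_hamiltonian hd he hP hQ

end Pool.Agent.Results.MP_af8dfd_co.Products
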